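import Pool.Agent.H97.SDQ.Targets

/-!
# The clause of a state contains no axiom (AXQ)
-/

set_option autoImplicit false

open Finset

namespace Pool.Agent.H97.SDQ

open Pool.Agent.H97.SD

theorem Hq_mono {N a b : ℕ} {W W' : Finset (BV N a b)} (h : W ⊆ W') : Hq W ⊆ Hq W' := by
  intro j hj
  unfold Hq at hj ⊢
  rw [mem_filter] at hj ⊢
  refine ⟨mem_univ _, le_trans (card_le_card ?_) hj.2⟩
  intro u hu
  rw [mem_filter] at hu ⊢
  exact ⟨mem_univ _, fun h1 => hu.2 (h h1)⟩

theorem Hp_subset_Hq {N a b : ℕ} (C : Clause (BV N a b)) (Q : Finset (BV N a b)) :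
    Hp C ⊆ Hq (vq C Q) := by
  have h1 : Hp C = Hq (C.image Prod.fst) := rfl
  rw [h1]
  exact Hq_mono subset_union_left

theorem pf_AXQ (hCLO : P_CLO) (hONE : P_ONE) : P_AXQ := by
  intro N M k a b σ h r p α x O B C Q hr hα hInv hA
  obtain ⟨hFx, hOF, hHq, hcard, hsat⟩ := hInv
  have hY : Y x = O := (hONE N M k a b σ h).1 α x O hα hOF
  have hclosed := (hCLO N M k σ r).1
  obtain ⟨c, hc1, hc2⟩ := (hONE N M k a b σ h).2 C x hFx hA
  have hcin : c ∈ cl σ r (B ∪ O) := by
    by_contra hcn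
    have h1 := hclosed (B ∪ O) c hcn
    have h2 : out σ c (B ∪ O ∪ VJ σ (cl σ r (B ∪ O))) = 0 := by
      unfold out
      rw [Finset.card_eq_zero, Finset.filter_eq_empty_iff]
      intro i _
      simp only [not_not]
      exact Finset.mem_union_left _ (Finset.mem_union_left _ (hHq (Hp_subset_Hq C Q (hc2 i))))
    omega
  exact hsat c hcin (by rw [← hc1, hY])

end Pool.Agent.H97.SDQ
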