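import Pool.Agent.H97.SDQ.Targets

/-!
# Sums of binomial coefficients (BIN)
-/

set_option autoImplicit false

open Finset

namespace Pool.Agent.H97.SDQ

open Pool.Agent.H97.SD

theorem exp_le_two_rpow (x : ℝ) (hx : 0 ≤ x) : Real.exp x ≤ (2 : ℝ) ^ (2 * x) := by
  rw [Real.rpow_def_of_pos (by norm_num : (0 : ℝ) < 2)]
  refine Real.exp_le_exp.2 ?_
  have := Real.log_two_gt_d9
  nlinarith

theorem sum_choose_mul (n d B : ℕ) (hd : d ≤ n) (hB : 1 ≤ B) :
    (∑ s ∈ range (d + 1), n.choose s) * B ^ (n - d) ≤ (1 + B) ^ n := by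
  rw [add_pow, sum_mul]
  calc ∑ s ∈ range (d + 1), n.choose s * B ^ (n - d)
      ≤ ∑ s ∈ range (d + 1), 1 ^ s * B ^ (n - s) * n.choose s := by
        refine sum_le_sum fun s hs => ?_
        rw [mem_range] at hs
        rw [one_pow, one_mul, mul_comm]
        exact Nat.mul_le_mul_right _ (Nat.pow_le_pow_right hB (by omega))
    _ ≤ ∑ s ∈ range (n + 1), 1 ^ s * B ^ (n - s) * n.choose s := by
        refine sum_le_sum_of_subset ?_
        intro s hs
        rw [mem_range] at hs ⊢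
        omega

theorem pf_BIN : P_BIN := by
  intro A hA
  refine ⟨8 * A ^ 2, by nlinarith [Nat.one_le_pow 2 A hA], fun n n' d hn hd => ?_⟩
  have hA0 : (0 : ℝ) < A := by exact_mod_cast hA
  have hAR : (1 : ℝ) ≤ A := by exact_mod_cast hA
  have hnR : (n' : ℝ) ≤ n := by exact_mod_cast hn
  have hdR : 8 * (A : ℝ) ^ 2 * d ≤ n := by exact_mod_cast hd
  have hd0 : (0 : ℝ) ≤ d := Nat.cast_nonneg d
  rcases le_or_gt d n' with h | h
  · obtain ⟨T, hT⟩ : ∃ T : ℕ, T = ∑ s ∈ range (d + 1), n'.choose s := ⟨_, rfl⟩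
    rw [← hT]
    have h1 := sum_choose_mul n' d (4 * A) h (by omega)
    rw [← hT] at h1
    have hB0 : (0 : ℝ) < 4 * (A : ℝ) := by positivity
    have h2 : (T : ℝ) * (4 * (A : ℝ)) ^ (n' - d) ≤ (1 + 4 * (A : ℝ)) ^ n' := by exact_mod_cast h1
    have h3 : (1 + 4 * (A : ℝ)) ^ n' ≤ (4 * (A : ℝ)) ^ n' * Real.exp (n' / (4 * A)) := by
      have h4 : 1 + 4 * (A : ℝ) ≤ 4 * A * Real.exp (1 / (4 * A)) := by
        have h5 := Real.add_one_le_exp (1 / (4 * (A : ℝ)))
        have h6 : 4 * (A : ℝ) * (1 / (4 * A) + 1) = 1 + 4 * A := by field_simp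
        rw [← h6]
        exact mul_le_mul_of_nonneg_left h5 hB0.le
      calc (1 + 4 * (A : ℝ)) ^ n' ≤ (4 * A * Real.exp (1 / (4 * A))) ^ n' :=
            pow_le_pow_left₀ (by positivity) h4 _
        _ = (4 * (A : ℝ)) ^ n' * Real.exp (n' / (4 * A)) := by
            rw [mul_pow, ← Real.exp_nat_mul]
            congr 2
            ring
    have h4 : (4 * (A : ℝ)) ^ n' = (4 * (A : ℝ)) ^ (n' - d) * (4 * (A : ℝ)) ^ d := by
      rw [← pow_add]
      congr 1
      omega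
    have h5 : (T : ℝ) ≤ (4 * (A : ℝ)) ^ d * Real.exp (n' / (4 * A)) := by
      have h6 : 0 < (4 * (A : ℝ)) ^ (n' - d) := by positivity
      have h7 := h2.trans h3
      rw [h4] at h7
      have h8 : (4 * (A : ℝ)) ^ (n' - d) * T ≤ (4 * (A : ℝ)) ^ (n' - d) *
          ((4 * (A : ℝ)) ^ d * Real.exp (n' / (4 * A))) := by
        calc (4 * (A : ℝ)) ^ (n' - d) * T = T * (4 * (A : ℝ)) ^ (n' - d) := by ring
          _ ≤ _ := h7
          _ = _ := by ring
      exact le_of_mul_le_mul_left h8 h6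
    have h6 : (4 * (A : ℝ)) ^ d ≤ (2 : ℝ) ^ ((4 * A * d : ℕ) : ℝ) := by
      rw [Real.rpow_natCast, pow_mul]
      refine pow_le_pow_left₀ (by positivity) ?_ _
      have h7 : 4 * A ≤ 2 ^ (4 * A) := (Nat.lt_two_pow_self).le
      exact_mod_cast h7
    have h7 : Real.exp (n' / (4 * A)) ≤ (2 : ℝ) ^ (2 * ((n' : ℝ) / (4 * A))) :=
      exp_le_two_rpow _ (by positivity)
    calc (T : ℝ) ≤ (4 * (A : ℝ)) ^ d * Real.exp (n' / (4 * A)) := h5
      _ ≤ (2 : ℝ) ^ ((4 * A * d : ℕ) : ℝ) * (2 : ℝ) ^ (2 * ((n' : ℝ) / (4 * A))) :=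
          mul_le_mul h6 h7 (Real.exp_pos _).le (by positivity)
      _ = (2 : ℝ) ^ (((4 * A * d : ℕ) : ℝ) + 2 * ((n' : ℝ) / (4 * A))) := by
          rw [Real.rpow_add (by norm_num)]
      _ ≤ (2 : ℝ) ^ ((n : ℝ) / A) := by
          refine Real.rpow_le_rpow_of_exponent_le (by norm_num) ?_
          push_cast
          rw [le_div_iff₀ hA0]
          have h8 : (4 * (A : ℝ) * d + 2 * ((n' : ℝ) / (4 * A))) * A =
              4 * (A : ℝ) ^ 2 * d + n' / 2 := by
            field_simp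
            ring
          rw [h8]
          linarith
  · have h1 : ∑ s ∈ range (d + 1), n'.choose s = 2 ^ n' := by
      rw [← Nat.sum_range_choose n']
      symm
      refine sum_subset ?_ ?_
      · intro s hs
        rw [mem_range] at hs ⊢
        omega
      · intro s _ hs
        rw [mem_range, not_lt] at hs
        exact Nat.choose_eq_zero_of_lt (by omega)
    rw [h1]
    push_cast
    rw [← Real.rpow_natCast]
    refine Real.rpow_le_rpow_of_exponent_le (by norm_num) ?_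
    rw [le_div_iff₀ hA0]
    have h2 : (n' : ℝ) ≤ d := by exact_mod_cast h.le
    nlinarith

end Pool.Agent.H97.SDQ
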