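import Pool.Agent.H97.SDQ.Targets
import Pool.Agent.H97.SDQ.AXQ

/-!
# All free steps from a state (FRQ)
-/

set_option autoImplicit false

open Finset

namespace Pool.Agent.H97.SDQ

open Pool.Agent.H97.SD

theorem often_cons_mem {V : Type} [DecidableEq V] [Fintype V] (R : ℕ) (l : List V) (v : V)
    (hv : v ∈ often R l) : often R (v :: l) = often R l := by
  unfold often at hv ⊢
  rw [mem_filter] at hv
  ext u
  simp only [mem_filter, mem_univ, true_and, List.count_cons, beq_iff_eq]
  by_cases h : v = u
  · subst h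
    simp only [if_true]
    have := hv.2
    omega
  · simp only [if_neg h, add_zero]

theorem phi_cons_le {V : Type} [DecidableEq V] [Fintype V] (R : ℕ) (l : List V) (v : V) :
    phi R l ≤ phi R (v :: l) := by
  unfold phi
  refine sum_le_sum fun u _ => ?_
  rw [List.count_cons]
  have : l.count u ≤ l.count u + (if (v == u) = true then 1 else 0) := Nat.le_add_right _ _
  exact min_le_min_right _ this

/-- What is preserved by free steps. -/
def Keep {N M k a b : ℕ} (σ : Fin M → Fin k → Fin N) (h : Fin M → ℕ) (r p R S r₀ : ℕ)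
    (line : ℕ → Clause (BV N a b)) (rule : ℕ → Rule (BV N a b)) (α x : BV N a b → Bool)
    (O B : Finset (Fin N)) (Q : Finset (BV N a b)) (m : ℕ) (i : ℕ) : Prop :=
  i < S ∧ ∃ l, Path rule r₀ i l ∧ often R l = Q ∧ m ≤ phi R l ∧ InvQ σ h r p α x O B (line i) Q

theorem fstep_keep (hAXQ : P_AXQ) {N M k a b : ℕ} (σ : Fin M → Fin k → Fin N) (h : Fin M → ℕ)
    (r p R S r₀ : ℕ) (line : ℕ → Clause (BV N a b)) (rule : ℕ → Rule (BV N a b))
    (α x : BV N a b → Bool) (O B : Finset (Fin N)) (Q : Finset (BV N a b)) (m i : ℕ)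
    (hr : 1 ≤ r) (hα : EvenA α) (href : IsRef (FF a b σ h) S r₀ line rule)
    (hk : Keep σ h r p R S r₀ line rule α x O B Q m i) :
    (∃ (v : BV N a b) (j k' : ℕ), rule i = Rule.res v j k' ∧ v ∉ Q ∧ fstep rule Q x i = i) ∨
    (fstep rule Q x i < i ∧ Keep σ h r p R S r₀ line rule α x O B Q m (fstep rule Q x i)) := by
  obtain ⟨hi, l, hl, hQ, hm, hInv⟩ := hk
  have hcor := href.2.2 i hi
  cases hrule : rule i with
  | ax =>
    exfalso
    rw [hrule] at hcor
    exact hAXQ N M k a b σ h r p α x O B (line i) Q hr hα hInv hcor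
  | weak j =>
    right
    rw [hrule] at hcor
    obtain ⟨hji, hsub⟩ := hcor
    have hf : fstep rule Q x i = j := by
      unfold fstep
      rw [hrule]
    rw [hf]
    refine ⟨hji, by omega, l, Path.weak hl hrule, hQ, hm, ?_⟩
    obtain ⟨h1, h2, h3, h4, h5⟩ := hInv
    refine ⟨fun l hl => h1 l (hsub hl), h2, ?_, h4, h5⟩
    exact (Hq_mono (union_subset_union_left (image_subset_image hsub))).trans h3
  | res v j k' =>
    rw [hrule] at hcor
    obtain ⟨hji, hki, hsub1, hsub2⟩ := hcor
    by_cases hv : v ∈ Q
    · right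
      have hf : fstep rule Q x i = if x v then k' else j := by
        unfold fstep
        rw [hrule]
        simp only [if_pos hv]
      rw [hf]
      have hchild : ∀ c : ℕ, c < i → line c ⊆ insert (v, !(x v)) (line i) →
          Path rule r₀ c (v :: l) → c < i ∧ Keep σ h r p R S r₀ line rule α x O B Q m c := by
        intro c hc hsub hp
        refine ⟨hc, by omega, v :: l, hp, ?_, hm.trans (phi_cons_le R l v), ?_⟩
        · rw [often_cons_mem R l v (by rw [hQ]; exact hv), hQ]
        · obtain ⟨h1, h2, h3, h4, h5⟩ := hInv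
          refine ⟨?_, h2, ?_, h4, h5⟩
          · intro l' hl'
            rcases mem_insert.1 (hsub hl') with rfl | h6
            · simp
            · exact h1 l' h6
          · refine (Hq_mono ?_).trans h3
            unfold vq
            refine union_subset ?_ subset_union_right
            intro u hu
            obtain ⟨l', hl', rfl⟩ := mem_image.1 hu
            rcases mem_insert.1 (hsub hl') with rfl | h6
            · exact mem_union_right _ hv
            · exact mem_union_left _ (mem_image_of_mem _ h6)
      cases hx : x v with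
      | true =>
        simp only [if_true]
        refine hchild k' hki ?_ (Path.right hl hrule)
        rw [hx]
        exact hsub2
      | false =>
        simp only [Bool.false_eq_true, if_false]
        refine hchild j hji ?_ (Path.left hl hrule)
        rw [hx]
        exact hsub1
    · left
      refine ⟨v, j, k', rfl, hv, ?_⟩
      unfold fstep
      rw [hrule]
      simp only [if_neg hv]

theorem pf_FRQ (hAXQ : P_AXQ) : P_FRQ := by
  intro N M k a b σ h r p R S r₀ i line rule α x O B l hr hα href hi hl hInv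
  have key : ∀ n : ℕ, Keep σ h r p R S r₀ line rule α x O B (often R l) (phi R l)
      ((fstep rule (often R l) x)^[n] i) ∧
      ((∃ (v : BV N a b) (j k' : ℕ), rule ((fstep rule (often R l) x)^[n] i) = Rule.res v j k' ∧
        v ∉ often R l ∧ fstep rule (often R l) x ((fstep rule (often R l) x)^[n] i) =
          (fstep rule (often R l) x)^[n] i) ∨ (fstep rule (often R l) x)^[n] i + n ≤ i) := by
    intro n
    induction n with
    | zero => exact ⟨⟨hi, l, hl, rfl, le_rfl, hInv⟩, Or.inr le_rfl⟩
    | succ n ih =>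
      obtain ⟨hk, hcase⟩ := ih
      rw [Function.iterate_succ_apply']
      rcases hcase with ⟨v, j, k', h1, h2, h3⟩ | hle
      · rw [h3]
        exact ⟨hk, Or.inl ⟨v, j, k', h1, h2, h3⟩⟩
      · rcases fstep_keep hAXQ σ h r p R S r₀ line rule α x O B (often R l) (phi R l) _ hr hα
          href hk with ⟨v, j, k', h1, h2, h3⟩ | ⟨h1, h2⟩
        · rw [h3]
          exact ⟨hk, Or.inl ⟨v, j, k', h1, h2, h3⟩⟩
        · exact ⟨h2, Or.inr (by omega)⟩
  obtain ⟨⟨h1, l', h2, h3, h4, h5⟩, hcase⟩ := key S
  rcases hcase with ⟨v, j, k', h6, h7, -⟩ | hle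
  · exact ⟨l', h1, h2, h3, h4, h5, v, j, k', h6, h7⟩
  · omega

end Pool.Agent.H97.SDQ
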