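import Pool.Agent.H97.SDQ.Targets

/-!
# The game (GMQ), after helper20's GAM
-/

set_option autoImplicit false

open Finset

namespace Pool.Agent.H97.SDQ

open Pool.Agent.H97.SD

theorem hq_empty {N a b : ℕ} (hab : 2 ≤ a * b) :
    Hq (∅ : Finset (BV N a b)) = ∅ := by
  unfold Hq
  rw [Finset.filter_eq_empty_iff]
  intro j _
  have h1 : (univ.filter (fun u : Fin a × Fin b => (j, u) ∉ (∅ : Finset (BV N a b)))) = univ := by
    simp
  rw [h1, Finset.card_univ, Fintype.card_prod, Fintype.card_fin, Fintype.card_fin]
  omega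

theorem often_nil {V : Type} [DecidableEq V] [Fintype V] (R : ℕ) : often R ([] : List V) = ∅ := by
  unfold often
  rw [Finset.filter_eq_empty_iff]
  intro v _
  rw [List.count_nil]
  omega

theorem phi_le {V : Type} [DecidableEq V] [Fintype V] (R : ℕ) (l : List V) :
    phi R l ≤ (R + 1) * Fintype.card V := by
  unfold phi
  calc ∑ v, min (l.count v) (R + 1) ≤ ∑ _v : V, (R + 1) :=
        sum_le_sum fun v _ => min_le_right _ _
    _ = (R + 1) * Fintype.card V := by
        rw [sum_const, card_univ, smul_eq_mul, mul_comm]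

theorem pf_GMQ (hCLO : P_CLO) (hPHQ : P_PHQ) : P_GMQ := by
  classical
  intro N M k a b σ h r p R d L m S r₀ line rule α hr hrk hp hab hE href hpath hmL hα
  have key : ∀ u : ℕ, u ≤ m →
      (∃ (i : ℕ) (Q : Finset (BV N a b)) (χ : BV N a b → Bool) (β γ : ℕ → Bool) (t : ℕ)
        (O : Finset (Fin N)), i < S ∧ Q.card ≤ d ∧ t ≤ L ∧
        (univ.filter (fun v => χ v = true)).card ≤ d ∧ O.card ≤ m * p ∧
        CompQ α χ line (trj rule S χ (i, Q) β γ) t O ∧
        p ≤ (cl σ r (UQ line (trj rule S χ (i, Q) β γ) t ∪ O)).card) ∨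
      ∃ (i : ℕ) (l : List (BV N a b)) (x : BV N a b → Bool) (O : Finset (Fin N)), i < S ∧
        Path rule r₀ i l ∧ u * L ≤ phi R l ∧ O.card ≤ u * p ∧
        InvQ σ h r p α x O (Hq (vq (line i) (often R l))) (line i) (often R l) := by
    intro u
    induction u with
    | zero =>
      intro _
      right
      refine ⟨r₀, [], α, ∅, href.1, Path.refl, ?_, ?_, ?_⟩
      · omega
      · simp
      · rw [href.2.1, often_nil]
        have hvq : vq (∅ : Clause (BV N a b)) ∅ = ∅ := rfl
        have hcl : cl σ r (Hq (vq (∅ : Clause (BV N a b)) ∅) ∪ (∅ : Finset (Fin N))) = ∅ := by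
          rw [hvq, hq_empty hab, Finset.union_empty]
          exact (hCLO N M k σ r).2.2.2 hrk
        refine ⟨?_, ⟨?_, ?_⟩, Finset.Subset.refl _, ?_, ?_⟩
        · intro l hl
          exact absurd hl (Finset.notMem_empty l)
        · intro v _
          rfl
        · intro j hj
          exact absurd hj (Finset.notMem_empty j)
        · rw [hcl, Finset.card_empty]
          omega
        · intro c hc
          rw [hcl] at hc
          exact absurd hc (Finset.notMem_empty c)
    | succ u ih =>
      intro hu
      rcases ih (by omega) with h1 | ⟨i, l, x, O, hi, hl, hphi, hO, hI⟩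
      · exact Or.inl h1
      · have hup : (u + 1) * p ≤ m * p := Nat.mul_le_mul_right p hu
        have hup' : (u + 1) * p = u * p + p := by ring
        rcases hPHQ N M k a b σ h r p R d L S r₀ i line rule α x O l hr hE hα href hpath hi hl
          hI with ⟨χ, β, γ, t, O', ht, hχ, hO', hcomp, hp'⟩ |
            ⟨i', l', x', O', hi', hl', hphi', hO', hI'⟩
        · left
          exact ⟨i, often R l, χ, β, γ, t, O', hi, hpath i l hl, ht, hχ, by omega, hcomp, hp'⟩
        · right
          refine ⟨i', l', x', O', hi', hl', ?_, by omega, hI'⟩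
          have h3 : (u + 1) * L = u * L + L := by ring
          omega
  rcases key m le_rfl with h1 | ⟨i, l, x, O, _, _, hphi, _, _⟩
  · exact h1
  · exfalso
    have h2 := phi_le R l
    have h3 : Fintype.card (BV N a b) = N * a * b := by
      rw [Fintype.card_prod, Fintype.card_prod, Fintype.card_fin, Fintype.card_fin,
        Fintype.card_fin, mul_assoc]
    rw [h3] at h2
    omega

end Pool.Agent.H97.SDQ
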