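import Pool.Agent.H97.SDQ.Targets

/-!
# From a set of clauses to a sequence of lines (SEQ)
-/

set_option autoImplicit false

open Finset

namespace Pool.Agent.H97.SDQ

open Pool.Agent.H97.SD

theorem pf_SEQ : P_SEQ := by
  classical
  intro V _ F P D ⟨h0, ρ, hρ, hstep⟩
  obtain ⟨m, hm⟩ : ∃ m : ℕ, m = P.card := ⟨_, rfl⟩
  let e : Fin m ≃ P := (finCongr hm).trans P.equivFin.symm
  let g : Fin m → ℕ := fun i => ρ (e i).1
  let τ : Equiv.Perm (Fin m) := Tuple.sort g
  have hmono : Monotone (g ∘ τ) := Tuple.monotone_sort g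
  let c : Fin m → Clause V := fun i => (e (τ i)).1
  have hcP : ∀ i, c i ∈ P := fun i => (e (τ i)).2
  have hcmono : ∀ i j : Fin m, i ≤ j → ρ (c i) ≤ ρ (c j) := fun i j hij => hmono hij
  have hix : ∀ C ∈ P, ∃ i : Fin m, c i = C := by
    intro C hC
    refine ⟨τ.symm (e.symm ⟨C, hC⟩), ?_⟩
    simp only [c, Equiv.apply_symm_apply]
  have hlt : ∀ i j : Fin m, ρ (c i) < ρ (c j) → i < j := by
    intro i j hij
    by_contra hcon
    have := hcmono j i (not_lt.1 hcon)
    omega
  let line : ℕ → Clause V := fun i => if h : i < m then c ⟨i, h⟩ else ∅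
  have hline : ∀ i : Fin m, line i = c i := by
    intro i
    simp only [line, dif_pos i.2]
  -- the rules
  have hrule : ∀ i : ℕ, ∃ R : Rule V, (i < m →
      ((R = Rule.ax ∧ ∃ A ∈ F, A ⊆ line i) ∨ ∃ (x : V) (j k : ℕ), R = Rule.res x j k ∧
        j < i ∧ k < i ∧ ρ (line j) < ρ (line i) ∧ ρ (line k) < ρ (line i) ∧
        line j ⊆ insert (x, true) (line i) ∧ line k ⊆ insert (x, false) (line i))) ∧
      (m ≤ i → R = Rule.ax) := by
    intro i
    rcases Nat.lt_or_ge i m with h | h
    · have h1 : line i = c ⟨i, h⟩ := hline ⟨i, h⟩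
      rcases hstep (c ⟨i, h⟩) (hcP _) with hA | ⟨x, C₀, hC₀, C₁, hC₁, h2, h3, h4, h5⟩
      · refine ⟨Rule.ax, fun _ => Or.inl ⟨rfl, ?_⟩, fun h' => absurd h' (by omega)⟩
        rw [h1]
        exact hA
      · obtain ⟨j, rfl⟩ := hix C₀ hC₀
        obtain ⟨k, rfl⟩ := hix C₁ hC₁
        refine ⟨Rule.res x j k, fun _ => Or.inr ⟨x, j, k, rfl, ?_, ?_, ?_, ?_, ?_, ?_⟩,
          fun h' => absurd h' (by omega)⟩
        · exact hlt _ _ h2
        · exact hlt _ _ h3
        · rw [hline j, h1]
          exact h2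
        · rw [hline k, h1]
          exact h3
        · rw [hline j, h1]
          exact h4
        · rw [hline k, h1]
          exact h5
    · exact ⟨Rule.ax, fun h' => absurd h' (by omega), fun _ => rfl⟩
  choose rule hr1 hr2 using hrule
  obtain ⟨r, hr⟩ := hix ∅ h0
  have hr0 : line r = ∅ := by rw [hline r, hr]
  refine ⟨r, line, rule, ⟨?_, hr0, ?_⟩, ?_⟩
  · rw [← hm]
    exact r.2
  · intro i hi
    rcases hr1 i (by omega) with ⟨h1, h2⟩ | ⟨x, j, k, h1, h2, h3, -, -, h4, h5⟩
    · rw [h1]
      exact h2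
    · rw [h1]
      exact ⟨h2, h3, h4, h5⟩
  · have key : ∀ (i : ℕ) (l : List V), Path rule r i l →
        i < m ∧ l.length + ρ (line i) ≤ ρ (line r) := by
      intro i l hp
      induction hp with
      | refl => exact ⟨r.2, by simp⟩
      | @weak i j l hp hri ih =>
        exfalso
        rcases hr1 i ih.1 with ⟨h1, -⟩ | ⟨x, j, k, h1, -⟩
        · rw [h1] at hri
          simp at hri
        · rw [h1] at hri
          simp at hri
      | @left i j k x l hp hri ih =>
        rcases hr1 i ih.1 with ⟨h1, -⟩ | ⟨x', j', k', h1, h2, h3, h4, h5, -⟩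
        · rw [h1] at hri
          simp at hri
        · rw [h1] at hri
          injection hri with e1 e2 e3
          subst e2
          have := ih.2
          have h6 := ih.1
          refine ⟨by omega, ?_⟩
          rw [List.length_cons]
          omega
      | @right i j k x l hp hri ih =>
        rcases hr1 i ih.1 with ⟨h1, -⟩ | ⟨x', j', k', h1, h2, h3, h4, h5, -⟩
        · rw [h1] at hri
          simp at hri
        · rw [h1] at hri
          injection hri with e1 e2 e3
          subst e3
          have := ih.2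
          have h6 := ih.1
          refine ⟨by omega, ?_⟩
          rw [List.length_cons]
          omega
    intro i l hp
    have h1 := (key i l hp).2
    rw [hr0] at h1
    omega

end Pool.Agent.H97.SDQ
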