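import Pool.Agent.H97.SDQ.Targets

/-!
[STQ] One step of the game (copy of helper24's STP).
-/

set_option autoImplicit false

open Finset

namespace Pool.Agent.H97.SDQ

open Pool.Agent.H97.SD

theorem pf_STQ (hCLO : P_CLO) (hHAL : P_HAL) (hFIX : P_FIX) (hFLQ : P_FLQ) : P_STQ := by
  intro N M k a b σ h r p α x O B C C' v Q Q' hE2 hInv hsub hQQ hQv
  obtain ⟨hFx, hOF, hHp, hcard, hsat⟩ := hInv
  have hclosed := (hCLO N M k σ r).1
  have hmono := (hCLO N M k σ r).2.1
  have habs := (hCLO N M k σ r).2.2.1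
  have hN : 1 ≤ N := by
    have h1 := v.1.isLt
    omega
  have hFx' : Falsified C' x := by
    intro l hl
    rcases Finset.mem_insert.1 (hsub hl) with h1 | h1
    · rw [h1]; simp
    · exact hFx l h1
  refine ⟨hFx', ?_⟩
  have hvq : vq C' Q' ⊆ insert v (vq C Q) := by
    intro u hu
    rcases Finset.mem_union.1 hu with h1 | h1
    · obtain ⟨l, hl, rfl⟩ := Finset.mem_image.1 h1
      rcases Finset.mem_insert.1 (hsub hl) with h2 | h2
      · rw [h2]; exact Finset.mem_insert_self _ _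
      · exact Finset.mem_insert_of_mem (Finset.mem_union_left _ (Finset.mem_image_of_mem _ h2))
    · rcases Finset.mem_insert.1 (hQv h1) with h2 | h2
      · rw [h2]; exact Finset.mem_insert_self _ _
      · exact Finset.mem_insert_of_mem (Finset.mem_union_right _ h2)
  by_cases hstop : p ≤ (cl σ r (B ∪ Hq (vq C' Q') ∪ O)).card
  · exact Or.inl hstop
  right
  push Not at hstop
  have hBB : B ∪ O ⊆ B ∪ Hq (vq C' Q') ∪ O :=
    Finset.union_subset_union_left Finset.subset_union_left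
  have hclm : cl σ r (B ∪ O) ⊆ cl σ r (B ∪ Hq (vq C' Q') ∪ O) := hmono _ _ hBB
  have hScard : (cl σ r (B ∪ Hq (vq C' Q') ∪ O) \ cl σ r (B ∪ O)).card + (cl σ r (B ∪ O)).card =
      (cl σ r (B ∪ Hq (vq C' Q') ∪ O)).card := Finset.card_sdiff_add_card_eq_card hclm
  obtain ⟨z, hzinj, hz⟩ := hHAL N M k σ p r hN hE2
    (cl σ r (B ∪ Hq (vq C' Q') ∪ O) \ cl σ r (B ∪ O)) (B ∪ O ∪ VJ σ (cl σ r (B ∪ O))) (by omega)
    (fun c hc => hclosed (B ∪ O) c (Finset.mem_sdiff.1 hc).2)
  obtain ⟨T, hTS, hT⟩ := hFIX N M k σ h O (cl σ r (B ∪ Hq (vq C' Q') ∪ O) \ cl σ r (B ∪ O)) z hzinj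
    (fun c hc => ⟨(hz c hc).1, fun hO => (hz c hc).2
      (Finset.mem_union_left _ (Finset.mem_union_right _ hO))⟩)
  have hdO : Disjoint (T.image z) O := by
    rw [Finset.disjoint_left]
    intro j hj hO
    obtain ⟨c, hc, rfl⟩ := Finset.mem_image.1 hj
    exact (hz c (hTS hc)).2 (Finset.mem_union_left _ (Finset.mem_union_right _ hO))
  have hdH : Disjoint (T.image z) (Hq (vq C Q)) := by
    rw [Finset.disjoint_left]
    intro j hj hO
    obtain ⟨c, hc, rfl⟩ := Finset.mem_image.1 hj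
    exact (hz c (hTS hc)).2 (Finset.mem_union_left _ (Finset.mem_union_left _ (hHp hO)))
  have hdV : ∀ j ∈ T.image z, j ∉ VJ σ (cl σ r (B ∪ O)) := by
    intro j hj hO
    obtain ⟨c, hc, rfl⟩ := Finset.mem_image.1 hj
    exact (hz c (hTS hc)).2 (Finset.mem_union_right _ hO)
  obtain ⟨x', hx1, hx2, hx3⟩ := hFLQ N a b C' (vq C Q) (vq C' Q') v α x O (T.image z) hvq
    Finset.subset_union_left hFx' hOF hdO hdH
  have hZsub : T.image z ⊆ VJ σ (cl σ r (B ∪ Hq (vq C' Q') ∪ O)) := by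
    intro j hj
    obtain ⟨c, hc, rfl⟩ := Finset.mem_image.1 hj
    unfold VJ
    rw [Finset.mem_biUnion]
    obtain ⟨i, hi⟩ := (hz c (hTS hc)).1
    exact ⟨c, (Finset.mem_sdiff.1 (hTS hc)).1, Finset.mem_image.2 ⟨i, Finset.mem_univ _, hi⟩⟩
  have hcl : cl σ r (B ∪ Hq (vq C' Q') ∪ (O ∪ T.image z)) = cl σ r (B ∪ Hq (vq C' Q') ∪ O) := by
    rw [← Finset.union_assoc]
    exact habs _ _ hZsub
  refine ⟨x', O ∪ T.image z, Finset.subset_union_left, ?_,
    fun u hu => hx3 u (Finset.mem_union_right _ hu), hx2, hx1, Finset.subset_union_right, ?_, ?_⟩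
  · rw [hcl]
    have h1 := Finset.card_union_le O (T.image z)
    have h2 : (T.image z).card ≤ T.card := Finset.card_image_le
    have h3 := Finset.card_le_card hTS
    omega
  · rw [hcl]; exact hstop
  · rw [hcl]
    intro c hc
    by_cases hc1 : c ∈ cl σ r (B ∪ O)
    · have h1 : wt σ c (O ∪ T.image z) = wt σ c O := by
        unfold wt
        congr 1
        apply Finset.filter_congr
        intro i _
        rw [Finset.mem_union]
        constructor
        · rintro (h1 | h1)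
          · exact h1
          · exact absurd (Finset.mem_biUnion.2 ⟨c, hc1, Finset.mem_image.2
              ⟨i, Finset.mem_univ _, rfl⟩⟩) (hdV _ h1)
        · exact fun h1 => Or.inl h1
      rw [h1]
      exact hsat c hc1
    · exact hT c (Finset.mem_sdiff.2 ⟨hc, hc1⟩)

end Pool.Agent.H97.SDQ
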