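import Pool.Agent.H97.SDQ.Asm
import Pool.Agent.H97.SD.TREE
import Pool.Agent.H97.SD.UPB
import Pool.Agent.H97.SD.IDX
import Pool.Agent.H97.SD.TRU
import Pool.Agent.H97.SD.FIX
import Pool.Agent.H97.SD.GEN
import Pool.Agent.H97.SD.UNS
import Pool.Agent.H97.SDQ.SEQ
import Pool.Agent.H97.SDQ.BIN
import Pool.Agent.H97.SDQ.AXQ
import Pool.Agent.H97.SDQ.FRQ
import Pool.Agent.H97.SDQ.STQ
import Pool.Agent.H97.SDQ.GMQ
import Pool.Agent.H97.SDQ.LOQ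
import Pool.Agent.H20.SD.CLO
import Pool.Agent.H20.SD.HAL
import Pool.Agent.H20.SD.PU
import Pool.Agent.H24.SD.CE1
import Pool.Agent.H24.SD.CE2
import Pool.Agent.H24.SD.ONE
import Pool.Agent.H36.SD.PAT
import Pool.Agent.H61.SD.EXI
import Pool.Agent.H73.SD.NE2
import Pool.Agent.H74.SDQ.TRC
import Pool.Agent.H74.SDQ.PHQ
import Pool.Agent.H96.SD.PK
import Pool.Agent.H96.SD.SIZ
import Pool.Agent.H99.SD.NE1
import Pool.Agent.H99.SDQ.FLQ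
import Pool.Agent.H99.SDQ.CNQ
import Pool.Agent.H99.SDQ.PLQ

/-!
# The final theorem of the project SD
-/

set_option autoImplicit false

namespace Pool.Agent.H97.SDQ

open Pool.Agent.H97.SD

theorem tCLO : P_CLO := Pool.Agent.H20.SD.pf_CLO

theorem tHAL : P_HAL := Pool.Agent.H20.SD.pf_HAL

theorem tUPB : P_UPB := pf_UPB (pf_TREE pf_IDX) Pool.Agent.H36.SD.pf_PAT

theorem tEXI : P_EXI :=
  Pool.Agent.H61.SD.pf_EXI Pool.Agent.H24.SD.pf_CE1 Pool.Agent.H24.SD.pf_CE2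
    Pool.Agent.H99.SD.pf_NE1 Pool.Agent.H73.SD.NE2.pf_NE2

theorem tFRQ : P_FRQ := pf_FRQ (pf_AXQ tCLO Pool.Agent.H24.SD.pf_ONE)

theorem tSTQ : P_STQ := pf_STQ tCLO tHAL pf_FIX Pool.Agent.H99.SDQ.pf_FLQ

theorem tPHQ : P_PHQ := Pool.Agent.H74.SDQ.pf_PHQ tCLO Pool.Agent.H74.SDQ.pf_TRC tSTQ tFRQ

theorem tLOQ : P_LOQ :=
  pf_LOQ (pf_GEN tCLO) (pf_GMQ tCLO tPHQ)
    (Pool.Agent.H99.SDQ.pf_CNQ Pool.Agent.H36.SD.pf_PAT Pool.Agent.H74.SDQ.pf_TRC)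

theorem tFIQ (hTRQ : P_TRQ) : P_FIQ :=
  pf_FIQ pf_TRU pf_UNS Pool.Agent.H96.SD.pf_SIZ tUPB tEXI Pool.Agent.H20.SD.pf_PU
    Pool.Agent.H96.SD.pf_PK pf_SEQ hTRQ tLOQ pf_BIN Pool.Agent.H99.SDQ.pf_PLQ

end Pool.Agent.H97.SDQ
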