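import Pool.Agent.H97.SD.Targets

/-!
Definitions for the second part of the project SD on `MP_c62aed_lc`: refutations as sequences of
lines, paths, variables which are resolved often.
-/

set_option autoImplicit false

open Finset

namespace Pool.Agent.H97.SDQ

open Pool.Agent.H97.SD

/-! ## Resolution refutations -/

/-- How a line of a resolution refutation is obtained: from a clause of the formula (`ax`), from
the line `j` (`weak j`), or from the lines `j` and `k` by resolution on the variable `x`
(`res x j k`). -/
inductive Rule (V : Type) : Type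
  | ax : Rule V
  | weak (j : ℕ) : Rule V
  | res (x : V) (j k : ℕ) : Rule V

/-- Line `i` is correct: it contains a clause of `F`, or the earlier line `j`, or the resolvent
on `x` of the earlier lines `j` (with `x`) and `k` (with `¬x`). -/
def Correct {V : Type} [DecidableEq V] (F : Finset (Clause V)) (line : ℕ → Clause V) (i : ℕ) :
    Rule V → Prop
  | Rule.ax => ∃ A ∈ F, A ⊆ line i
  | Rule.weak j => j < i ∧ line j ⊆ line i
  | Rule.res x j k => j < i ∧ k < i ∧ line j ⊆ insert (x, true) (line i) ∧
      line k ⊆ insert (x, false) (line i)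

/-- The lines `0, 1, .., S - 1` form a resolution refutation of `F` (with weakening); the line
`r` is empty. -/
def IsRef {V : Type} [DecidableEq V] (F : Finset (Clause V)) (S r : ℕ) (line : ℕ → Clause V)
    (rule : ℕ → Rule V) : Prop :=
  r < S ∧ line r = ∅ ∧ ∀ i, i < S → Correct F line i (rule i)

/-- `Path rule r i l`: there is a path from the line `r` to the line `i` (from lines to the
lines from which they are obtained) along which the variables of the list `l` are resolved. -/
inductive Path {V : Type} (rule : ℕ → Rule V) (r : ℕ) : ℕ → List V → Prop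
  | refl : Path rule r r []
  | weak {i j : ℕ} {l : List V} : Path rule r i l → rule i = Rule.weak j → Path rule r j l
  | left {i j k : ℕ} {x : V} {l : List V} :
      Path rule r i l → rule i = Rule.res x j k → Path rule r j (x :: l)
  | right {i j k : ℕ} {x : V} {l : List V} :
      Path rule r i l → rule i = Rule.res x j k → Path rule r k (x :: l)

/-- The variables which occur more than `R` times in `l`. -/
def often {V : Type} [DecidableEq V] [Fintype V] (R : ℕ) (l : List V) : Finset V :=
  univ.filter (fun v => R < l.count v)

/-- The number of occurrences, each variable counted at most `R + 1` times. -/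
def phi {V : Type} [DecidableEq V] [Fintype V] (R : ℕ) (l : List V) : ℕ :=
  ∑ v, min (l.count v) (R + 1)

/-! ## Simulation of a path -/

/-- One free step: weakening, or a resolution on a variable of `Q` (with answer `χ`). -/
def fstep {V : Type} [DecidableEq V] (rule : ℕ → Rule V) (Q : Finset V) (χ : V → Bool) (i : ℕ) :
    ℕ :=
  match rule i with
  | Rule.ax => i
  | Rule.weak j => j
  | Rule.res x j k => if x ∈ Q then (if χ x then k else j) else i

/-- All free steps (`S` of them, the last ones do nothing). -/
def frun {V : Type} [DecidableEq V] (rule : ℕ → Rule V) (S : ℕ) (Q : Finset V) (χ : V → Bool)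
    (i : ℕ) : ℕ :=
  (fstep rule Q χ)^[S] i

/-- The resolution with the answer `b` at the line `i`; the resolved variable is added to `Q`
if `g` is true. -/
def mst {V : Type} [DecidableEq V] (rule : ℕ → Rule V) (i : ℕ) (Q : Finset V) (b g : Bool) :
    ℕ × Finset V :=
  match rule i with
  | Rule.ax => (i, Q)
  | Rule.weak _ => (i, Q)
  | Rule.res x j k => (if b then k else j, if g then insert x Q else Q)

/-- The line and the set `Q` after `s` resolutions on variables outside `Q`. -/
def trj {V : Type} [DecidableEq V] (rule : ℕ → Rule V) (S : ℕ) (χ : V → Bool) (u : ℕ × Finset V)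
    (β γ : ℕ → Bool) : ℕ → ℕ × Finset V
  | 0 => u
  | s + 1 => mst rule (frun rule S (trj rule S χ u β γ s).2 χ (trj rule S χ u β γ s).1)
      (trj rule S χ u β γ s).2 (β s) (γ s)

/-! ## The game -/

/-- The blocks all but at most one bit of which are in `W`. -/
def Hq {N a b : ℕ} (W : Finset (BV N a b)) : Finset (Fin N) :=
  univ.filter (fun j => (univ.filter (fun u : Fin a × Fin b => (j, u) ∉ W)).card ≤ 1)

/-- The variables of the clause `C` and of `Q`. -/
def vq {N a b : ℕ} (C : Clause (BV N a b)) (Q : Finset (BV N a b)) : Finset (BV N a b) :=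
  C.image Prod.fst ∪ Q

/-- The invariant of the game. -/
def InvQ {N a b M k : ℕ} (σ : Fin M → Fin k → Fin N) (h : Fin M → ℕ) (r p : ℕ)
    (α x : BV N a b → Bool) (O B : Finset (Fin N)) (C : Clause (BV N a b))
    (Q : Finset (BV N a b)) : Prop :=
  Falsified C x ∧ OneFlip α x O ∧ Hq (vq C Q) ⊆ B ∧ (cl σ r (B ∪ O)).card < p ∧
    ∀ c ∈ cl σ r (B ∪ O), wt σ c O ≠ h c

/-- The blocks of `Hq` along a simulated path. -/
def UQ {N a b : ℕ} (line : ℕ → Clause (BV N a b)) (τ : ℕ → ℕ × Finset (BV N a b)) (t : ℕ) :
    Finset (Fin N) :=
  (range (t + 1)).biUnion (fun s => Hq (vq (line (τ s).1) (τ s).2))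

/-- Along the simulated path all literals outside the blocks of `O` are false at `α`, and `α`
is `χ` at the variables of the sets `Q` outside the blocks of `O`. -/
def CompQ {N a b : ℕ} (α χ : BV N a b → Bool) (line : ℕ → Clause (BV N a b))
    (τ : ℕ → ℕ × Finset (BV N a b)) (t : ℕ) (O : Finset (Fin N)) : Prop :=
  ∀ s, s ≤ t → (∀ l ∈ line (τ s).1, l.1.1 ∉ O → α l.1 ≠ l.2) ∧
    ∀ v ∈ (τ s).2, v.1 ∉ O → α v = χ v

end Pool.Agent.H97.SDQ
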