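import Pool.Agent.H97.SDQ.All
import Pool.Agent.H9.SDQ.TRQ

/-!
# The theorem (second part of SD)
-/

set_option autoImplicit false

namespace Pool.Agent.H97.SDQ

open Finset Pool.Agent.H97.SD

theorem final : P_FIQ := tFIQ Pool.Agent.H9.SDQ.pf_TRQ

end Pool.Agent.H97.SDQ
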