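import Pool.Agent.H97.SDQ.Targets

/-!
# The lower bound for the formula on blocks (LOQ)
-/

set_option autoImplicit false

open Finset

namespace Pool.Agent.H97.SDQ

open Pool.Agent.H97.SD

theorem pf_LOQ (hGEN : P_GEN) (hGMQ : P_GMQ) (hCNQ : P_CNQ) : P_LOQ := by
  intro N M k a b σ h r p e R d L m S r₀ line rule hr hrk hp hb hab hE1 hE2 href hpath hmL
  have h1 := hCNQ N a b L (m * p) (e + r * p) d S line rule hb ?_
  · exact h1
  · intro α hα
    obtain ⟨i, Q, χ, β, γ, t, O, hi, hQ, ht, hχ, hO, hcomp, hp'⟩ :=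
      hGMQ N M k a b σ h r p R d L m S r₀ line rule α hr hrk hp hab hE2 href hpath hmL hα
    refine ⟨i, Q, χ, β, γ, t, O, hi, hQ, ht, hχ, hO, hcomp, ?_⟩
    obtain ⟨J, hJ, hJv⟩ := hGEN N M k σ r p
      (UQ line (trj rule S χ (i, Q) β γ) t ∪ O) hp'
    have h2 := hE1 J hJ
    have h3 : (VJ σ J).card ≤
        (VJ σ J \ (UQ line (trj rule S χ (i, Q) β γ) t ∪ O)).card +
          (UQ line (trj rule S χ (i, Q) β γ) t ∪ O).card := by
      have h4 : VJ σ J ⊆ (VJ σ J \ (UQ line (trj rule S χ (i, Q) β γ) t ∪ O)) ∪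
          (UQ line (trj rule S χ (i, Q) β γ) t ∪ O) := by
        intro j hj
        by_cases h5 : j ∈ UQ line (trj rule S χ (i, Q) β γ) t ∪ O
        · exact mem_union_right _ h5
        · exact mem_union_left _ (mem_sdiff.2 ⟨hj, h5⟩)
      exact (card_le_card h4).trans (card_union_le _ _)
    omega

end Pool.Agent.H97.SDQ
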