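import Pool.Agent.H97.SDQ.Defs

/-!
Statements of the modules of the second part of the project SD on `MP_c62aed_lc`.
-/

set_option autoImplicit false

open Finset

namespace Pool.Agent.H97.SDQ

open Pool.Agent.H97.SD

/-! ## Refutations in general -/

/-- [SEQ] From a set of clauses to a sequence of lines. -/
def P_SEQ : Prop :=
  ∀ (V : Type) [DecidableEq V] (F P : Finset (Clause V)) (D : ℕ), Refutes F P D →
    ∃ (r : ℕ) (line : ℕ → Clause V) (rule : ℕ → Rule V), IsRef F P.card r line rule ∧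
      ∀ (i : ℕ) (l : List V), Path rule r i l → l.length ≤ D

/-- [TRQ] A refutation of a renamed formula gives one of the formula (the variables outside the
image of `ι` get the value false). -/
def P_TRQ : Prop :=
  ∀ (V W : Type) [DecidableEq V] [DecidableEq W] (ι : V ↪ W) (F : Finset (Clause V)) (S r : ℕ)
    (line : ℕ → Clause W) (rule : ℕ → Rule W), IsRef (F.image (ren ι)) S r line rule →
    ∃ (line' : ℕ → Clause V) (rule' : ℕ → Rule V), IsRef F S r line' rule' ∧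
      ∀ (i : ℕ) (l' : List V), Path rule' r i l' →
        ∃ l : List W, Path rule r i l ∧ ∀ v, l'.count v = l.count (ι v)

/-- [TRC] The simulated path depends only on the values of `χ` on the last set `Q` and on the
earlier values of `β` and `γ`; the sets `Q` increase. -/
def P_TRC : Prop :=
  ∀ (V : Type) [DecidableEq V] (rule : ℕ → Rule V) (S t : ℕ) (χ χ' : V → Bool)
    (u : ℕ × Finset V) (β β' γ γ' : ℕ → Bool), (∀ s, s < t → β s = β' s ∧ γ s = γ' s) →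
    (∀ v ∈ (trj rule S χ u β γ t).2, χ v = χ' v) →
    ∀ s, s ≤ t → trj rule S χ' u β' γ' s = trj rule S χ u β γ s ∧
      (trj rule S χ u β γ s).2 ⊆ (trj rule S χ u β γ t).2

/-! ## The game -/

/-- [FLQ] Flipping one bit in each block of `Z`. -/
def P_FLQ : Prop :=
  ∀ (N a b : ℕ) (C' : Clause (BV N a b)) (W W' : Finset (BV N a b)) (v : BV N a b)
    (α x : BV N a b → Bool) (O Z : Finset (Fin N)), W' ⊆ insert v W → C'.image Prod.fst ⊆ W' →
    Falsified C' x → OneFlip α x O → Disjoint Z O → Disjoint Z (Hq W) →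
    ∃ x' : BV N a b → Bool, OneFlip α x' (O ∪ Z) ∧ Falsified C' x' ∧ ∀ u ∈ W', x' u = x u

/-- [AXQ] The clause of a state contains no axiom. -/
def P_AXQ : Prop :=
  ∀ (N M k a b : ℕ) (σ : Fin M → Fin k → Fin N) (h : Fin M → ℕ) (r p : ℕ)
    (α x : BV N a b → Bool) (O B : Finset (Fin N)) (C : Clause (BV N a b))
    (Q : Finset (BV N a b)), 1 ≤ r → EvenA α → InvQ σ h r p α x O B C Q →
    ¬ ∃ A ∈ FF a b σ h, A ⊆ C

/-- [STQ] One step of the game. -/
def P_STQ : Prop :=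
  ∀ (N M k a b : ℕ) (σ : Fin M → Fin k → Fin N) (h : Fin M → ℕ) (r p : ℕ)
    (α x : BV N a b → Bool) (O B : Finset (Fin N)) (C C' : Clause (BV N a b)) (v : BV N a b)
    (Q Q' : Finset (BV N a b)), E2 σ p r → InvQ σ h r p α x O B C Q →
    C' ⊆ insert (v, !(x v)) C → Q ⊆ Q' → Q' ⊆ insert v Q →
    Falsified C' x ∧ (p ≤ (cl σ r (B ∪ Hq (vq C' Q') ∪ O)).card ∨
      ∃ (x' : BV N a b → Bool) (O' : Finset (Fin N)), O ⊆ O' ∧
        O'.card + (cl σ r (B ∪ O)).card ≤ O.card + (cl σ r (B ∪ Hq (vq C' Q') ∪ O')).card ∧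
        (∀ u ∈ Q', x' u = x u) ∧ InvQ σ h r p α x' O' (B ∪ Hq (vq C' Q')) C' Q')

/-- [FRQ] All free steps from a state lead to a resolution on a variable outside `Q`. -/
def P_FRQ : Prop :=
  ∀ (N M k a b : ℕ) (σ : Fin M → Fin k → Fin N) (h : Fin M → ℕ) (r p R S r₀ i : ℕ)
    (line : ℕ → Clause (BV N a b)) (rule : ℕ → Rule (BV N a b)) (α x : BV N a b → Bool)
    (O B : Finset (Fin N)) (l : List (BV N a b)), 1 ≤ r → EvenA α →
    IsRef (FF a b σ h) S r₀ line rule → i < S → Path rule r₀ i l →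
    InvQ σ h r p α x O B (line i) (often R l) →
    ∃ l' : List (BV N a b), frun rule S (often R l) x i < S ∧
      Path rule r₀ (frun rule S (often R l) x i) l' ∧ often R l' = often R l ∧
      phi R l ≤ phi R l' ∧
      InvQ σ h r p α x O B (line (frun rule S (often R l) x i)) (often R l) ∧
      ∃ (v : BV N a b) (j k' : ℕ), rule (frun rule S (often R l) x i) = Rule.res v j k' ∧
        v ∉ often R l

/-- [PHQ] A phase of `L` counted steps. -/
def P_PHQ : Prop :=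
  ∀ (N M k a b : ℕ) (σ : Fin M → Fin k → Fin N) (h : Fin M → ℕ) (r p R d L S r₀ i : ℕ)
    (line : ℕ → Clause (BV N a b)) (rule : ℕ → Rule (BV N a b)) (α x : BV N a b → Bool)
    (O : Finset (Fin N)) (l : List (BV N a b)), 1 ≤ r → E2 σ p r → EvenA α →
    IsRef (FF a b σ h) S r₀ line rule →
    (∀ (i : ℕ) (l : List (BV N a b)), Path rule r₀ i l → (often R l).card ≤ d) →
    i < S → Path rule r₀ i l →
    InvQ σ h r p α x O (Hq (vq (line i) (often R l))) (line i) (often R l) →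
    (∃ (χ : BV N a b → Bool) (β γ : ℕ → Bool) (t : ℕ) (O' : Finset (Fin N)), t ≤ L ∧
      (univ.filter (fun v => χ v = true)).card ≤ d ∧ O'.card ≤ O.card + p ∧
      CompQ α χ line (trj rule S χ (i, often R l) β γ) t O' ∧
      p ≤ (cl σ r (UQ line (trj rule S χ (i, often R l) β γ) t ∪ O')).card) ∨
    ∃ (i' : ℕ) (l' : List (BV N a b)) (x' : BV N a b → Bool) (O' : Finset (Fin N)), i' < S ∧
      Path rule r₀ i' l' ∧ phi R l + L ≤ phi R l' ∧ O'.card ≤ O.card + p ∧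
      InvQ σ h r p α x' O' (Hq (vq (line i') (often R l'))) (line i') (often R l')

/-- [GMQ] The game: every even assignment leads to a short simulated path with a large
closure. -/
def P_GMQ : Prop :=
  ∀ (N M k a b : ℕ) (σ : Fin M → Fin k → Fin N) (h : Fin M → ℕ) (r p R d L m S r₀ : ℕ)
    (line : ℕ → Clause (BV N a b)) (rule : ℕ → Rule (BV N a b)) (α : BV N a b → Bool),
    1 ≤ r → r ≤ k → 1 ≤ p → 2 ≤ a * b → E2 σ p r → IsRef (FF a b σ h) S r₀ line rule →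
    (∀ (i : ℕ) (l : List (BV N a b)), Path rule r₀ i l → (often R l).card ≤ d) →
    (R + 1) * (N * a * b) < m * L → EvenA α →
    ∃ (i : ℕ) (Q : Finset (BV N a b)) (χ : BV N a b → Bool) (β γ : ℕ → Bool) (t : ℕ)
      (O : Finset (Fin N)), i < S ∧ Q.card ≤ d ∧ t ≤ L ∧
      (univ.filter (fun v => χ v = true)).card ≤ d ∧ O.card ≤ m * p ∧
      CompQ α χ line (trj rule S χ (i, Q) β γ) t O ∧
      p ≤ (cl σ r (UQ line (trj rule S χ (i, Q) β γ) t ∪ O)).card

/-- [CNQ] Counting the even assignments. -/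
def P_CNQ : Prop :=
  ∀ (N a b L f g d S : ℕ) (line : ℕ → Clause (BV N a b)) (rule : ℕ → Rule (BV N a b)),
    1 ≤ b →
    (∀ α : BV N a b → Bool, EvenA α →
      ∃ (i : ℕ) (Q : Finset (BV N a b)) (χ : BV N a b → Bool) (β γ : ℕ → Bool) (t : ℕ)
        (O : Finset (Fin N)), i < S ∧ Q.card ≤ d ∧ t ≤ L ∧
        (univ.filter (fun v => χ v = true)).card ≤ d ∧ O.card ≤ f ∧
        CompQ α χ line (trj rule S χ (i, Q) β γ) t O ∧
        N ≤ (UQ line (trj rule S χ (i, Q) β γ) t ∪ O).card + g) →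
    2 ^ ((b - 1) * a * N) ≤ S * (∑ s ∈ range (d + 1), (N * a * b).choose s) ^ 2 *
      (2 ^ L * 2 ^ L * (L + 1)) * 2 ^ N * 2 ^ (a * b * (g + f))

/-- [LOQ] The lower bound for the formula on blocks. -/
def P_LOQ : Prop :=
  ∀ (N M k a b : ℕ) (σ : Fin M → Fin k → Fin N) (h : Fin M → ℕ) (r p e R d L m S r₀ : ℕ)
    (line : ℕ → Clause (BV N a b)) (rule : ℕ → Rule (BV N a b)),
    1 ≤ r → r ≤ k → 1 ≤ p → 1 ≤ b → 2 ≤ a * b → E1 σ p e → E2 σ p r →
    IsRef (FF a b σ h) S r₀ line rule →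
    (∀ (i : ℕ) (l : List (BV N a b)), Path rule r₀ i l → (often R l).card ≤ d) →
    (R + 1) * (N * a * b) < m * L →
    2 ^ ((b - 1) * a * N) ≤ S * (∑ s ∈ range (d + 1), (N * a * b).choose s) ^ 2 *
      (2 ^ L * 2 ^ L * (L + 1)) * 2 ^ N * 2 ^ (a * b * (e + r * p + m * p))

/-! ## Parameters -/

/-- [BIN] Sums of binomial coefficients. -/
def P_BIN : Prop :=
  ∀ A : ℕ, 1 ≤ A → ∃ K : ℕ, 1 ≤ K ∧ ∀ n n' d : ℕ, n' ≤ n → K * d ≤ n →
    ((∑ s ∈ range (d + 1), n'.choose s : ℕ) : ℝ) ≤ (2 : ℝ) ^ ((n : ℝ) / A)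

/-- [PLQ] The lower bound, numerically. -/
def P_PLQ : Prop :=
  ∀ (ε : ℝ) (A : ℕ), 0 < ε → 2 ≤ A → 12 ≤ ε * A → ∃ K₀ : ℕ, 1 ≤ K₀ ∧ ∀ K n w a : ℕ,
    K₀ ≤ K → 1 ≤ a → K * a ≤ w → K * w ≤ n → ∀ N k p r l R S T : ℕ, N = n / (a * A) →
      k = w / (a * A) → p = 2 * A * N / k + 1 → r = k / (4 * A * A) → l = n / A →
      R = w / (K * a) → (T : ℝ) ≤ (2 : ℝ) ^ ((n : ℝ) / A) →
      (R + 1) * (N * a * A) < r * l ∧
      (2 ^ ((A - 1) * a * N) ≤ S * T ^ 2 * (2 ^ l * 2 ^ l * (l + 1)) * 2 ^ N *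
        2 ^ (a * A * (N / A + r * p + r * p)) → (2 : ℝ) ^ ((1 - ε) * n) ≤ S)

/-- [FIQ] The final theorem. -/
def P_FIQ : Prop :=
  ∀ ε : ℝ, 0 < ε → ∃ K : ℕ, 1 ≤ K ∧ ∀ n w a : ℕ, 1 ≤ a → K * a ≤ w → K * w ≤ n →
    ∃ F : Finset (Clause (Fin n)), (∀ C ∈ F, C.card ≤ w) ∧ F.card ≤ n * w * 2 ^ w ∧
      (∀ z, ∃ C ∈ F, Falsified C z) ∧
      (∀ (S r : ℕ) (line : ℕ → Clause (Fin n)) (rule : ℕ → Rule (Fin n)),
        IsRef F S r line rule →
        (∀ (i : ℕ) (l : List (Fin n)), Path rule r i l →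
          K * (univ.filter (fun v => w < K * a * l.count v)).card ≤ n) →
        (2 : ℝ) ^ ((1 - ε) * n) ≤ S) ∧
      ∃ (S r : ℕ) (line : ℕ → Clause (Fin n)) (rule : ℕ → Rule (Fin n)),
        IsRef F S r line rule ∧
        (∀ (i : ℕ) (l : List (Fin n)), Path rule r i l → a * l.length ≤ n * w) ∧
        (S : ℝ) ≤ (2 : ℝ) ^ ((n : ℝ) * (1 + Real.logb 2 a) / a + 2 * w)

end Pool.Agent.H97.SDQ
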